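import Pool.Agent.N343.AS.Stm

/-!
Project AS, leaf JGO: the target interval.
-/

set_option autoImplicit false

namespace Pool.Agent.N323.AS

open Pool.Agent.N343.AS

theorem Q_ge (i : ℕ) : i + 4 ≤ Q i := by
  induction i with
  | zero => simp [Q]
  | succ i ih => simp only [Q]; omega

theorem main : S_JGO := by
  intro i
  have hQ : (0 : ℝ) < 2 ^ (Q i) := by positivity
  have hc : (2 : ℝ) ≤ 2 ^ (i + 1) := by
    calc (2 : ℝ) = 2 ^ 1 := by norm_num
      _ ≤ 2 ^ (i + 1) := pow_le_pow_right₀ (by norm_num) (by omega)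
  have hb : (2 : ℝ) ^ (i + 4) = 8 * 2 ^ (i + 1) := by ring
  have hbQ : (2 : ℝ) ^ (i + 4) ≤ 2 ^ (Q i) := pow_le_pow_right₀ (by norm_num) (Q_ge i)
  refine ⟨by unfold ul; positivity, ?_, ?_, ?_⟩
  · unfold ul ur
    apply div_lt_div_of_pos_right _ hQ
    rw [hb]
    linarith
  · unfold ur
    rw [div_le_one hQ]
    linarith
  · intro N x hx
    have hE : (0 : ℝ) < 2 ^ (E N) := by positivity
    have hZ : Z N = 1 / 2 ^ (E N) := by
      unfold Z
      rw [one_div_pow]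
    have hZp : 0 < Z N := by rw [hZ]; positivity
    have hxZ : x / Z N = x * 2 ^ (E N) := by
      rw [hZ]; field_simp
    have ha : x - ⌊x / Z N⌋ * Z N = Int.fract (x * 2 ^ (E N)) * Z N := by
      rw [hxZ, Int.fract, hZ]
      field_simp
    rw [ha]
    obtain ⟨h1, h2⟩ := hx
    set f := Int.fract (x * 2 ^ (E N)) with hf
    have hf0 : 0 ≤ f := Int.fract_nonneg _
    have hf1 : f < 1 := Int.fract_lt_one _
    have hk : f * Z N * 2 ^ (Q i) / Z N = f * 2 ^ (Q i) := by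
      field_simp
    unfold ul at h1
    unfold ur at h2
    rw [div_lt_iff₀ hQ] at h1
    rw [lt_div_iff₀ hQ] at h2
    have g1 : (2 : ℤ) ^ (i + 1) + 1 ≤ ⌊f * 2 ^ (Q i)⌋ := by
      apply Int.le_floor.2
      push_cast
      linarith
    have g2 : ⌊f * 2 ^ (Q i)⌋ < (2 : ℤ) ^ (i + 4) - 1 - 2 ^ (i + 1) := by
      apply Int.floor_lt.2
      push_cast
      linarith
    have hcZ : (0 : ℤ) < 2 ^ (i + 1) := by positivity
    have g3 : ⌊f * 2 ^ (Q i)⌋ % 2 ^ (i + 4) = ⌊f * 2 ^ (Q i)⌋ :=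
      Int.emod_eq_of_lt (by linarith) (by linarith)
    refine ⟨by positivity, ?_, ?_, ?_⟩
    · calc f * Z N < 1 * Z N := mul_lt_mul_of_pos_right hf1 hZp
        _ = Z N := one_mul _
    · rw [hk, g3]; exact g1
    · rw [hk, g3]; linarith

end Pool.Agent.N323.AS
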